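import Pool.Agent.Lib_helper80.KSYF.Main

/-!
# General Fano complete intersections are uniformly K-stable: every multidegree of Q1

Let `X_f ⊂ ℙ^{n+k}` be the complete intersection of forms `f_1, …, f_k` of degrees
`d_1, …, d_k ≥ 1` with `k + 2 ≤ ∑ d_i ≤ n + k`. There are a polynomial `H` with integral
coefficients in the coefficients of the forms, nonzero at some forms over `ℂ`, and an `ε > 0` such
that for all forms `f` over `ℂ` with `H(f) ≠ 0` (a nonempty Zariski open set of forms) the complete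
intersection `X_f` is smooth and `(1 + ε) S(E) ≤ A(E)` for every prime divisor `E` over `X_f`: it
is uniformly K-stable, in particular K-stable.
-/

namespace Pool.Agent.Results.MP_2c2240_ag.EveryKStability

open MvPolynomial Pool.Agent.KSS Pool.Agent.OPN
open scoped ENNReal

theorem result (n k : ℕ) (d : Fin k → ℕ) (hd : ∀ i, 1 ≤ d i)
    (h2 : k + 2 ≤ ∑ i, d i) (hF : ∑ i, d i ≤ n + k) :
    ∃ H : MvPolynomial (CI d (n + k + 1)) ℤ,
      (∃ f : Fin k → MvPolynomial (Fin (n + k + 1)) ℂ,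
        (∀ i, (f i).IsHomogeneous (d i)) ∧ Hv H f ≠ 0) ∧
      ∃ ε : ℝ, 0 < ε ∧
        ∀ f : Fin k → MvPolynomial (Fin (n + k + 1)) ℂ, (∀ i, (f i).IsHomogeneous (d i)) →
          Hv H f ≠ 0 → SmoothCI f ∧ ∀ E : DivisorOver f n,
            ENNReal.ofReal (1 + ε) * ExpVan d E ≤ (E.A : ℝ≥0∞) := by
  obtain ⟨H, hH, h⟩ := opn_every n k d hd h2 hF
  refine ⟨H, ?_, h⟩
  obtain ⟨f, hf⟩ := vg_exists (N := n + k + 1) d
  exact ⟨f, hf.1, umain_gen d f hf H hH⟩

end Pool.Agent.Results.MP_2c2240_ag.EveryKStability
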